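import Pool.Agent.TH547.Arc.Final
set_option autoImplicit false

/-!
# The arc complex spectral sequence collapses

`F = F^s_{g,δ}` is the surface of genus `g` with `s` punctures and with `δ.length` boundary
components which carry `δ[0], δ[1], ...` distinguished points.  The encoding of the cells of the
arc complex `Arc(F)` by region words is described in `Pool/Agent/TH547/Arc/Model.lean`; the
differential `∂²` (`bd2`) and the groups `E^0_{u,v}` (`InE0`) are defined in
`Pool/Agent/TH547/Arc/Model2.lean`.  That `∂²` is a differential of bidegree `(0, -1)` on these
groups is proved in `Final.lean` (`InE0.bd2`, `InE0.bd2_bd2`), that a face of an arc family is an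
arc family with the same rank or rank larger by one in `Col.lean` (`face`), and that the region
word `surf g δ s` is realizable with `δ.length` boundary cycles in
`Pool/Agent/TH554/J1158.lean` (`surf_ncy`, `surf_good`).

The proof: for a fixed `u` the column `E^0_{u,*}` is filtered by the subfamily of the arcs which
are not loops of the dual graph of the regions; the subquotients are complexes of families of
loops over a fixed region word (`G_thm`), for which the homology vanishes below the top degree.
Punctures are removed by small enclosing loops, several regions by the Kuenneth theorem, and for
one region without punctures this is the sphericity of the complex of nonseparating arc families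
modulo the mapping class group (`Pool.Agent.TH110.J940.N_thm`), proved by induction with the help
of words with closed boundary cycles marked by auxiliary markers.
-/
namespace Pool.Agent.Results.MP_e5080e_gt.Collapse

open Pool.Agent.TH547.Arc

/-- **The arc complex spectral sequence collapses at `E^1` onto its top horizontal row except in
dimension zero**: for every bordered surface `F = F^s_{g,δ}` with at least one boundary component
and at least one distinguished point on each boundary component, and all integers `u, v` such
that `v` is not the largest value of `- rank H_1(F_α)` which occurs and `u + v ≠ 0`, the group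
`E^1_{u,v}` is zero: every chain `z` in `E^0_{u,v}` with `∂² z = 0` is `∂² w` for some `w` in
`E^0_{u,v+1}`. -/
theorem result (g : ℕ) (δ : List ℕ) (s : ℕ) (_hr : δ ≠ []) (hδ : ∀ d ∈ δ, 1 ≤ d) (u v : ℤ)
    (hv : ¬ IsGreatest {w : ℤ | ∃ X : RW, IsArcFamily g δ s X ∧ w = -X.rk} v)
    (huv : u + v ≠ 0) (z : Cell →₀ ℤ) (hz : InE0 g δ s u v z) (hdz : bd2 z = 0) :
    ∃ w : Cell →₀ ℤ, InE0 g δ s u (v + 1) w ∧ bd2 w = z :=
  vanishing' g δ s hδ u v hv huv z hz hdz

end Pool.Agent.Results.MP_e5080e_gt.Collapse
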